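import Pool.Agent.Helper35.Cq.Defs

set_option autoImplicit false

open Finset Module
open scoped Classical

namespace Pool.Agent.Helper35.Cq

section nonhub
variable {F : Type*} [Field F] {V : Type*} [AddCommGroup V] [Module F V]

private theorem long_symm' {E : Finset V} (hE : Conic F E) {x y : V} (h : Long F E x y) :
    Long F E y x := by
  obtain ⟨h1, b, hb, hm⟩ := h
  refine ⟨fun a c hac => ?_, b⁻¹, inv_ne_zero hb, ?_⟩
  · have := h1 c a (by rw [add_comm]; exact hac)
    exact ⟨this.2, this.1⟩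
  · have := hE.smul_mem b⁻¹ (inv_ne_zero hb) _ hm
    rwa [smul_add, smul_smul, inv_mul_cancel₀ hb, one_smul, add_comm] at this

private theorem mem_nb' {E : Finset V} {x y : V} : y ∈ nb F E x ↔ y ∈ E ∧ Long F E x y := by
  simp [nb]

private theorem mem_pairs' {E A B : Finset V} {p : V × V} :
    p ∈ pairs F E A B ↔ (p.1 ∈ A ∧ p.2 ∈ B) ∧ Long F E p.1 p.2 := by
  simp [pairs]

/-- pairs as a sum of restricted neighbourhoods -/
private theorem card_pairs_eq {E A B : Finset V} (hB : B ⊆ E) :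
    (pairs F E A B).card = ∑ x ∈ A, (nb F E x ∩ B).card := by
  rw [← Finset.card_sigma]
  refine Finset.card_nbij' (fun p => ⟨p.1, p.2⟩) (fun p => (p.1, p.2)) ?_ ?_ ?_ ?_
  · intro p hp
    rw [Finset.mem_coe, mem_pairs'] at hp
    simp only [Finset.coe_sigma, Set.mem_sigma_iff, Finset.mem_coe, Finset.mem_inter, mem_nb']
    exact ⟨hp.1.1, ⟨hB hp.1.2, hp.2⟩, hp.1.2⟩
  · intro p hp
    simp only [Finset.coe_sigma, Set.mem_sigma_iff, Finset.mem_coe, Finset.mem_inter,
      mem_nb'] at hp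
    rw [Finset.mem_coe, mem_pairs']
    exact ⟨⟨hp.1, hp.2.2⟩, hp.2.1.2⟩
  · intro p _; rfl
  · intro p _; rfl

theorem exists_nonhub {F : Type*} [Field F] [Fintype F] {V : Type*} [AddCommGroup V]
    [Module F V] {E : Finset V} (hE : Conic F E) (γ l K : ℝ) (hl : 0 < l) (hγ : 0 < γ)
    (hne : E.Nonempty)
    (hX : ∀ X ⊆ E, ((pairs F E X X).card : ℝ) ≤ γ * l * X.card)
    (hK : K = 24 * Fintype.card F * γ ^ 3)
    (htri : l ^ 2 * E.card / (12 * Fintype.card F) ≤ tri F E) :
    ∃ w ∈ E, ((nb F E w).card : ℝ) ≤ K * l ∧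
      l ^ 2 / (72 * Fintype.card F) ≤ (pairs F E (nb F E w) (nb F E w)).card := by
  by_contra hcon
  push Not at hcon
  set q : ℝ := (Fintype.card F : ℝ) with hq
  have hq0 : 0 < q := by
    rw [hq]; exact_mod_cast Fintype.card_pos
  have hK0 : 0 < K := by rw [hK]; positivity
  set H : Finset V := E.filter (fun w => K * l < ((nb F E w).card : ℝ)) with hH
  have hHE : H ⊆ E := Finset.filter_subset _ _
  set t : V → ℕ := fun w => (pairs F E (nb F E w) (nb F E w)).card with ht
  -- size of H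
  have hHcard : (H.card : ℝ) * K ≤ γ * E.card := by
    have h1 : (H.card : ℝ) * (K * l) ≤ ∑ x ∈ H, ((nb F E x).card : ℝ) := by
      rw [← nsmul_eq_mul]
      exact Finset.card_nsmul_le_sum _ _ _ (fun x hx => (Finset.mem_filter.mp hx).2.le)
    have h2 : ∑ x ∈ H, ((nb F E x).card : ℝ) ≤ ∑ x ∈ E, ((nb F E x).card : ℝ) :=
      Finset.sum_le_sum_of_subset_of_nonneg hHE (fun _ _ _ => Nat.cast_nonneg _)
    have h3 : ∑ x ∈ E, ((nb F E x).card : ℝ) = ((pairs F E E E).card : ℝ) := by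
      rw [card_pairs_eq (Finset.Subset.refl E)]
      push_cast
      refine Finset.sum_congr rfl fun x _ => ?_
      rw [Finset.inter_eq_left.mpr (show nb F E x ⊆ E from Finset.filter_subset _ _)]
    have h4 := hX E (Finset.Subset.refl E)
    have h5 : (H.card : ℝ) * K * l ≤ γ * E.card * l := by nlinarith
    exact le_of_mul_le_mul_right h5 hl
  -- triangles
  set TH : Finset (V × V × V) := (H ×ˢ H ×ˢ H).filter
    (fun p => Long F E p.1 p.2.1 ∧ Long F E p.1 p.2.2 ∧ Long F E p.2.1 p.2.2) with hTH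
  have hTHcard : (TH.card : ℝ) ≤ (γ * l) ^ 2 * H.card := by
    have h1 : TH.card = ∑ x ∈ H, (pairs F E (nb F E x ∩ H) (nb F E x ∩ H)).card := by
      rw [← Finset.card_sigma]
      refine Finset.card_nbij' (fun p => ⟨p.1, p.2⟩) (fun p => (p.1, p.2)) ?_ ?_ ?_ ?_
      · intro p hp
        simp only [hTH, Finset.coe_filter, Finset.mem_product, Set.mem_ofPred_eq] at hp
        simp only [Finset.coe_sigma, Set.mem_sigma_iff, Finset.mem_coe, mem_pairs',
          Finset.mem_inter, mem_nb']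
        exact ⟨hp.1.1, ⟨⟨⟨hHE hp.1.2.1, hp.2.1⟩, hp.1.2.1⟩, ⟨hHE hp.1.2.2, hp.2.2.1⟩, hp.1.2.2⟩,
          hp.2.2.2⟩
      · intro p hp
        simp only [Finset.coe_sigma, Set.mem_sigma_iff, Finset.mem_coe, mem_pairs',
          Finset.mem_inter, mem_nb'] at hp
        simp only [hTH, Finset.coe_filter, Finset.mem_product, Set.mem_ofPred_eq]
        exact ⟨⟨hp.1, hp.2.1.1.2, hp.2.1.2.2⟩, hp.2.1.1.1.2, hp.2.1.2.1.2, hp.2.2⟩
      · intro p _; rfl
      · intro p _; rfl
    rw [h1]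
    push_cast
    calc ∑ x ∈ H, ((pairs F E (nb F E x ∩ H) (nb F E x ∩ H)).card : ℝ)
        ≤ ∑ x ∈ H, γ * l * ((nb F E x ∩ H).card : ℝ) :=
          Finset.sum_le_sum fun x _ => hX _ (Finset.inter_subset_right.trans hHE)
      _ = γ * l * ((pairs F E H H).card : ℝ) := by
          rw [← Finset.mul_sum, card_pairs_eq hHE]; push_cast; rfl
      _ ≤ γ * l * (γ * l * H.card) := by
          have := hX H hHE
          gcongr
      _ = (γ * l) ^ 2 * H.card := by ring
  -- total
  have htot : tri F E ≤ TH.card + 3 * ∑ w ∈ E \ H, t w := by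
    set N : Finset V := E \ H with hN
    set S : Finset (Σ _ : V, V × V) := N.sigma (fun w => pairs F E (nb F E w) (nb F E w)) with hS
    have hScard : S.card = ∑ w ∈ N, t w := by rw [hS, Finset.card_sigma]
    set T : Finset (Σ _ : V, V × V) := E.sigma (fun w => pairs F E (nb F E w) (nb F E w)) with hT
    have hTcard : T.card = tri F E := by rw [hT, Finset.card_sigma]; rfl
    have hmemT : ∀ x y z : V, (⟨x, (y, z)⟩ : Σ _ : V, V × V) ∈ T ↔
        x ∈ E ∧ ((y ∈ E ∧ Long F E x y) ∧ (z ∈ E ∧ Long F E x z)) ∧ Long F E y z := by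
      intro x y z
      simp only [hT, Finset.mem_sigma, mem_pairs', mem_nb']
    have hmemS : ∀ x y z : V, (⟨x, (y, z)⟩ : Σ _ : V, V × V) ∈ S ↔
        (x ∈ E ∧ x ∉ H) ∧ ((y ∈ E ∧ Long F E x y) ∧ (z ∈ E ∧ Long F E x z)) ∧ Long F E y z := by
      intro x y z
      simp only [hS, hN, Finset.mem_sigma, mem_pairs', mem_nb', Finset.mem_sdiff]
    have hsub : T ⊆ (TH.image fun p => (⟨p.1, p.2⟩ : Σ _ : V, V × V)) ∪
        (S ∪ (S.image (fun p => (⟨p.2.1, (p.1, p.2.2)⟩ : Σ _ : V, V × V)) ∪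
          S.image (fun p => (⟨p.2.1, (p.2.2, p.1)⟩ : Σ _ : V, V × V)))) := by
      rintro ⟨x, y, z⟩ h
      rw [hmemT] at h
      obtain ⟨hx, ⟨⟨hy, hxy⟩, hz, hxz⟩, hyz⟩ := h
      simp only [Finset.mem_union]
      by_cases hxH : x ∈ H
      · by_cases hyH : y ∈ H
        · by_cases hzH : z ∈ H
          · left
            rw [Finset.mem_image]
            refine ⟨(x, y, z), ?_, rfl⟩
            simp only [hTH, Finset.mem_filter, Finset.mem_product]
            exact ⟨⟨hxH, hyH, hzH⟩, hxy, hxz, hyz⟩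
          · right; right; right
            rw [Finset.mem_image]
            refine ⟨⟨z, (x, y)⟩, ?_, rfl⟩
            rw [hmemS]
            exact ⟨⟨hz, hzH⟩, ⟨⟨hx, long_symm' hE hxz⟩, hy, long_symm' hE hyz⟩, hxy⟩
        · right; right; left
          rw [Finset.mem_image]
          refine ⟨⟨y, (x, z)⟩, ?_, rfl⟩
          rw [hmemS]
          exact ⟨⟨hy, hyH⟩, ⟨⟨hx, long_symm' hE hxy⟩, hz, hyz⟩, hxz⟩
      · right; left
        rw [hmemS]
        exact ⟨⟨hx, hxH⟩, ⟨⟨hy, hxy⟩, hz, hxz⟩, hyz⟩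
    calc tri F E = T.card := hTcard.symm
      _ ≤ _ := Finset.card_le_card hsub
      _ ≤ TH.card + (S.card + (S.card + S.card)) := by
          refine (Finset.card_union_le _ _).trans (Nat.add_le_add Finset.card_image_le ?_)
          refine (Finset.card_union_le _ _).trans (Nat.add_le_add le_rfl ?_)
          exact (Finset.card_union_le _ _).trans
            (Nat.add_le_add Finset.card_image_le Finset.card_image_le)
      _ = TH.card + 3 * ∑ w ∈ N, t w := by rw [hScard]; ring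
  have hEpos : (0 : ℝ) < E.card := by exact_mod_cast hne.card_pos
  -- bound on TH
  have hTH2 : (TH.card : ℝ) ≤ l ^ 2 * E.card / (24 * q) := by
    refine hTHcard.trans ?_
    rw [le_div_iff₀ (by positivity)]
    have h6 : (H.card : ℝ) * (24 * q * γ ^ 3) ≤ γ * E.card := by rw [← hK]; exact hHcard
    have h7 : γ * ((H.card : ℝ) * (24 * q * γ ^ 2)) ≤ γ * E.card := by
      calc γ * ((H.card : ℝ) * (24 * q * γ ^ 2)) = (H.card : ℝ) * (24 * q * γ ^ 3) := by ring
        _ ≤ _ := h6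
    have h8 : (H.card : ℝ) * (24 * q * γ ^ 2) ≤ E.card := le_of_mul_le_mul_left h7 hγ
    have hl2 : 0 ≤ l ^ 2 := by positivity
    calc (γ * l) ^ 2 * H.card * (24 * q) = l ^ 2 * ((H.card : ℝ) * (24 * q * γ ^ 2)) := by ring
      _ ≤ l ^ 2 * E.card := mul_le_mul_of_nonneg_left h8 hl2
  -- bound on the rest
  have hrest : ∀ w ∈ E \ H, (t w : ℝ) < l ^ 2 / (72 * q) := by
    intro w hw
    rw [Finset.mem_sdiff] at hw
    apply hcon w hw.1
    by_contra h9
    exact hw.2 (Finset.mem_filter.mpr ⟨hw.1, not_le.mp h9⟩)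
  have htotR : (tri F E : ℝ) ≤ TH.card + 3 * ∑ w ∈ E \ H, (t w : ℝ) := by
    exact_mod_cast htot
  rcases (E \ H).eq_empty_or_nonempty with hemp | hnon
  · rw [hemp, Finset.sum_empty, mul_zero, add_zero] at htotR
    have h10 : l ^ 2 * E.card / (12 * q) = 2 * (l ^ 2 * E.card / (24 * q)) := by
      field_simp; ring
    have h11 : 0 < l ^ 2 * E.card / (24 * q) := by positivity
    rw [h10] at htri
    linarith
  · have h12 : ∑ w ∈ E \ H, (t w : ℝ) < ∑ w ∈ E \ H, (l ^ 2 / (72 * q) : ℝ) :=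
      Finset.sum_lt_sum_of_nonempty hnon hrest
    rw [Finset.sum_const, nsmul_eq_mul] at h12
    have h13 : ((E \ H).card : ℝ) ≤ E.card := by
      exact_mod_cast Finset.card_le_card Finset.sdiff_subset
    have h14 : 0 < l ^ 2 / (72 * q) := by positivity
    have h15 : ((E \ H).card : ℝ) * (l ^ 2 / (72 * q)) ≤ E.card * (l ^ 2 / (72 * q)) :=
      mul_le_mul_of_nonneg_right h13 h14.le
    have h16 : l ^ 2 * E.card / (12 * q) =
        l ^ 2 * E.card / (24 * q) + 3 * (E.card * (l ^ 2 / (72 * q))) := by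
      field_simp; ring
    rw [h16] at htri
    linarith

end nonhub

end Pool.Agent.Helper35.Cq
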